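import Mathlib

set_option autoImplicit false

namespace Pool.Agent.H60.CS

open MeasureTheory Set

/-- one-dimensional Brunn-Minkowski inequality -/
theorem bm_one {A B C : Set ℝ} (hA : MeasurableSet A) (hB : MeasurableSet B) (nA : A.Nonempty)
    (nB : B.Nonempty) (h : ∀ a ∈ A, ∀ b ∈ B, a + b ∈ C) : volume A + volume B ≤ volume C := by
  have key : ∀ K L : Set ℝ, K ⊆ A → L ⊆ B → IsCompact K → IsCompact L → K.Nonempty → L.Nonempty →
      volume K + volume L ≤ volume C := by
    intro K L hK hL cK cL nK nL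
    obtain ⟨a, ha, ha'⟩ := cK.exists_isGreatest nK
    obtain ⟨b, hb, hb'⟩ := cL.exists_isLeast nL
    rw [← measure_preimage_add_right volume (-b) K, ← measure_sdiff_null (s := L)
      (measure_singleton b), ← measure_preimage_add_right volume (-a) (L \ {b}),
      ← measure_union _ ((cL.measurableSet.diff (measurableSet_singleton b)).preimage (by fun_prop))]
    · refine measure_mono (union_subset (fun x hx => ?_) fun x hx => ?_)
      · simpa using h _ (hK hx) b (hL hb)
      · simpa using h a (hK ha) _ (hL hx.1)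
    · refine disjoint_left.2 fun x h1 h2 => h2.2 ?_
      have := ha' h1
      have := hb' h2.1
      simp only [mem_singleton_iff] at *
      linarith
  obtain ⟨a, ha⟩ := nA
  obtain ⟨b, hb⟩ := nB
  rw [hA.measure_eq_iSup_isCompact, hB.measure_eq_iSup_isCompact]
  have e : ∀ S : Set ℝ, ⨆ K ⊆ S, ⨆ (_ : IsCompact K), volume K =
      ⨆ K : {K : Set ℝ // K ⊆ S ∧ IsCompact K}, volume K.1 := fun S => by
    simp [iSup_subtype, iSup_and]
  rw [e, e]
  have : ∀ S : Set ℝ, Nonempty {K : Set ℝ // K ⊆ S ∧ IsCompact K} := fun S => ⟨⟨∅, by simp⟩⟩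
  refine ENNReal.iSup_add_iSup_le fun K L => le_trans ?_
    (key (insert a K) (insert b L) (insert_subset ha K.2.1) (insert_subset hb L.2.1)
      (K.2.2.insert a) (L.2.2.insert b) (by simp) (by simp))
  gcongr <;> exact subset_insert _ _

theorem layer {X : Type} [MeasurableSpace X] (μ : Measure X) [SFinite μ] {f : X → ENNReal}
    (hf : Measurable f) :
    ∫⁻ x, min (f x) 1 ∂μ = ∫⁻ t in Ioo (0 : ℝ) 1, μ {x | ENNReal.ofReal t < f x} := by
  have hm : MeasurableSet {p : ℝ × X | ENNReal.ofReal p.1 < f p.2} :=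
    measurableSet_lt (by fun_prop) (by fun_prop)
  have h1 := Measure.prod_apply (μ := volume.restrict (Ioo (0 : ℝ) 1)) (ν := μ) hm
  rw [Measure.prod_apply_symm hm] at h1
  refine Eq.trans (lintegral_congr fun x => ?_) h1
  rw [Measure.restrict_apply' measurableSet_Ioo]
  rcases le_total (f x) 1 with h | h
  · have hx : f x ≠ ⊤ := ne_top_of_le_ne_top ENNReal.one_ne_top h
    have : (fun t => (t, x)) ⁻¹' {p : ℝ × X | ENNReal.ofReal p.1 < f p.2} ∩ Ioo 0 1 =
        Ioo 0 (f x).toReal := by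
      ext t
      simp only [mem_inter_iff, mem_preimage, mem_ofPred_eq, mem_Ioo]
      refine ⟨fun H => ⟨H.2.1, (ENNReal.ofReal_lt_iff_lt_toReal H.2.1.le hx).1 H.1⟩, fun H =>
        ⟨(ENNReal.ofReal_lt_iff_lt_toReal H.1.le hx).2 H.2, H.1, H.2.trans_le ?_⟩⟩
      simpa using ENNReal.toReal_mono ENNReal.one_ne_top h
    rw [this, min_eq_left h, Real.volume_Ioo, sub_zero, ENNReal.ofReal_toReal hx]
  · have : (fun t => (t, x)) ⁻¹' {p : ℝ × X | ENNReal.ofReal p.1 < f p.2} ∩ Ioo 0 1 = Ioo 0 1 :=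
      inter_eq_right.2 fun t ht => (ENNReal.ofReal_lt_one.2 ht.2).trans_le h
    rw [min_eq_right h, this]
    simp

/-- the Prekopa-Leindler property of a measure with respect to a mean -/
def PL {X : Type} [MeasurableSpace X] (μ : Measure X) (m : X → X → X) : Prop :=
  ∀ f g h : X → ENNReal, Measurable f → Measurable g → Measurable h →
    (∀ x y, f x * g y ≤ h (m x y) ^ 2) → (∫⁻ x, f x ∂μ) * ∫⁻ x, g x ∂μ ≤ (∫⁻ x, h x ∂μ) ^ 2

theorem amgm {a b c : ENNReal} (h : a + b ≤ 2 * c) : a * b ≤ c ^ 2 := by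
  by_cases hc : c = ⊤
  · simp [hc]
  have : a + b ≠ ⊤ := ne_top_of_le_ne_top (ENNReal.mul_ne_top (by simp) hc) h
  lift a to NNReal using (ENNReal.add_ne_top.1 this).1
  lift b to NNReal using (ENNReal.add_ne_top.1 this).2
  lift c to NNReal using hc
  have h' : (a : ℝ) + b ≤ 2 * c := by exact_mod_cast h
  have : (a : ℝ) * b ≤ c ^ 2 := by nlinarith [sq_nonneg ((a : ℝ) - b), a.2, b.2]
  exact_mod_cast this

theorem pl_core {f g h : ℝ → ENNReal} (hf : Measurable f) (hg : Measurable g) (hh : Measurable h)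
    (f1 : ⨆ x, f x = 1) (g1 : ⨆ x, g x = 1) (H : ∀ x y, f x * g y ≤ h ((x + y) / 2) ^ 2) :
    (∫⁻ x, f x) * ∫⁻ x, g x ≤ (∫⁻ x, h x) ^ 2 := by
  have e : ∀ f : ℝ → ENNReal, ⨆ x, f x = 1 → ∫⁻ x, f x = ∫⁻ x, min (f x) 1 := fun f f1 =>
    lintegral_congr fun x => (min_eq_left (f1 ▸ le_iSup f x)).symm
  refine amgm (le_trans ?_ (mul_le_mul_right (lintegral_mono fun x => min_le_left (h x) 1) 2))
  have an : Antitone fun t : ℝ => volume {x | ENNReal.ofReal t < f x} :=
    fun s t hst => measure_mono fun x hx => (ENNReal.ofReal_le_ofReal hst).trans_lt hx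
  rw [e f f1, e g g1, layer _ hf, layer _ hg, layer _ hh, ← lintegral_const_mul' _ _ (by simp),
    ← lintegral_add_left an.measurable]
  refine setLIntegral_mono' measurableSet_Ioo fun t ht => ?_
  have ne : ∀ f : ℝ → ENNReal, ⨆ x, f x = 1 → {x | ENNReal.ofReal t < f x}.Nonempty := fun f f1 =>
    (lt_iSup_iff (f := f)).1 (f1 ▸ ENNReal.ofReal_lt_one.2 ht.2)
  refine (bm_one (C := (fun x => (1 / 2 : ℝ) * x) ⁻¹' {x | ENNReal.ofReal t < h x})
    (measurableSet_lt (by fun_prop) hf) (measurableSet_lt (by fun_prop) hg) (ne f f1) (ne g g1)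
    fun a ha b hb => ?_).trans ?_
  · have := (ENNReal.mul_lt_mul ha hb).trans_le (H a b)
    rw [← sq] at this
    simpa [div_eq_inv_mul] using (ENNReal.pow_lt_pow_left_iff two_ne_zero).1 this
  · rw [Real.volume_preimage_mul_left (by norm_num)]
    simp

/-- Prekopa-Leindler on the line -/
theorem pl_line : PL (volume : Measure ℝ) fun x y => (x + y) / 2 := by
  have bd : ∀ f g h : ℝ → ENNReal, Measurable f → Measurable g → Measurable h →
      ⨆ x, f x ≠ ⊤ → ⨆ x, g x ≠ ⊤ → (∀ x y, f x * g y ≤ h ((x + y) / 2) ^ 2) →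
      (∫⁻ x, f x) * ∫⁻ x, g x ≤ (∫⁻ x, h x) ^ 2 := by
    intro f g h hf hg hh fA gB H
    by_cases f0 : ⨆ x, f x = 0
    · simp [ENNReal.iSup_eq_zero.1 f0]
    by_cases g0 : ⨆ x, g x = 0
    · simp [ENNReal.iSup_eq_zero.1 g0]
    set A := ⨆ x, f x with hA
    set B := ⨆ x, g x with hB
    obtain ⟨s, hs⟩ : ∃ s : ENNReal, s ^ 2 = A⁻¹ * B⁻¹ := ⟨(A⁻¹ * B⁻¹) ^ (2⁻¹ : ℝ), by
      rw [← ENNReal.rpow_natCast, ← ENNReal.rpow_mul]; simp⟩
    have := pl_core (f := fun x => A⁻¹ * f x) (g := fun x => B⁻¹ * g x) (h := fun x => s * h x)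
      (by fun_prop) (by fun_prop) (by fun_prop)
      (by rw [← ENNReal.mul_iSup, ENNReal.inv_mul_cancel f0 fA])
      (by rw [← ENNReal.mul_iSup, ENNReal.inv_mul_cancel g0 gB]) fun x y => by
        rw [mul_pow, hs, mul_mul_mul_comm]; gcongr; exact H x y
    rw [lintegral_const_mul _ hf, lintegral_const_mul _ hg, lintegral_const_mul _ hh, mul_pow, hs,
      mul_mul_mul_comm] at this
    exact (ENNReal.mul_le_mul_iff_right (by simp [fA, gB]) (ENNReal.mul_ne_top (by simpa) (by simpa))).1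
      this
  intro f g h hf hg hh H
  have tr : ∀ f : ℝ → ENNReal, Measurable f → ∫⁻ x, f x = ⨆ k : ℕ, ∫⁻ x, min (f x) k := fun f hf => by
    rw [← lintegral_iSup (f := fun (k : ℕ) x => min (f x) k) (by fun_prop)
      fun a b hab x => min_le_min_left _ (by exact_mod_cast hab)]
    refine lintegral_congr fun x => ?_
    rw [← inf_iSup_eq, ENNReal.iSup_natCast, inf_top_eq]
  have fin : ∀ (f : ℝ → ENNReal) (k : ℕ), ⨆ x, min (f x) k ≠ ⊤ := fun f k =>
    ne_top_of_le_ne_top (ENNReal.natCast_ne_top k) (iSup_le fun x => min_le_right _ _)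
  rw [tr f hf, tr g hg, ENNReal.iSup_mul]
  refine iSup_le fun k => ?_
  rw [ENNReal.mul_iSup]
  exact iSup_le fun l => bd _ _ _ (by fun_prop) (by fun_prop) hh (fin f k) (fin g l) fun x y =>
    le_trans (mul_le_mul' (min_le_left _ _) (min_le_left _ _)) (H x y)

variable {X Y : Type} [MeasurableSpace X] [MeasurableSpace Y] {μ : Measure X} {ν : Measure Y}
  {m : X → X → X} {m' : Y → Y → Y}

theorem PL.map (h : PL μ m) {e : X → Y} (he : MeasurePreserving e μ ν)
    (hm : ∀ x y, e (m x y) = m' (e x) (e y)) : PL ν m' := fun f g k hf hg hk H => by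
  rw [← he.lintegral_comp hf, ← he.lintegral_comp hg, ← he.lintegral_comp hk]
  exact h _ _ _ (hf.comp he.measurable) (hg.comp he.measurable) (hk.comp he.measurable)
    fun x y => hm x y ▸ H _ _

theorem PL.prod [SFinite μ] [SFinite ν] (h : PL μ m) (h' : PL ν m') :
    PL (μ.prod ν) fun x y => (m x.1 y.1, m' x.2 y.2) := fun f g k hf hg hk H => by
  rw [lintegral_prod _ hf.aemeasurable, lintegral_prod _ hg.aemeasurable,
    lintegral_prod _ hk.aemeasurable]
  exact h _ _ _ hf.lintegral_prod_right' hg.lintegral_prod_right' hk.lintegral_prod_right'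
    fun x y => h' _ _ _ (by fun_prop) (by fun_prop) (by fun_prop) fun a b => H (x, a) (y, b)

theorem PL.power [SigmaFinite μ] (h : PL μ m) (n : ℕ) :
    PL (Measure.pi fun _ : Fin n => μ) fun x y i => m (x i) (y i) := by
  induction n with
  | zero =>
    intro f g k hf hg hk H
    let x₀ : Fin 0 → X := fun i => i.elim0
    have e : (Measure.pi fun _ : Fin 0 => μ) = Measure.dirac x₀ := Measure.pi_of_empty _ x₀
    have h0 : f x₀ * g x₀ ≤ k (fun i => m (x₀ i) (x₀ i)) ^ 2 := H x₀ x₀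
    rw [show (fun i => m (x₀ i) (x₀ i)) = x₀ from Subsingleton.elim _ _] at h0
    rw [e, lintegral_dirac' _ hf, lintegral_dirac' _ hg, lintegral_dirac' _ hk]
    exact h0
  | succ n ih =>
    refine (h.prod ih).map (measurePreserving_piFinSuccAbove (fun _ => μ) 0).symm fun x y => ?_
    funext i
    refine Fin.cases rfl (fun j => rfl) i

/-- set form -/
theorem PL.set (h : PL μ m) {A B C : Set X} (hA : MeasurableSet A) (hB : MeasurableSet B)
    (hC : MeasurableSet C) (H : ∀ a ∈ A, ∀ b ∈ B, m a b ∈ C) : μ A * μ B ≤ μ C ^ 2 := by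
  rw [← lintegral_indicator_one hA, ← lintegral_indicator_one hB, ← lintegral_indicator_one hC]
  refine h _ _ _ (measurable_one.indicator hA) (measurable_one.indicator hB)
    (measurable_one.indicator hC) fun x y => ?_
  by_cases hx : x ∈ A <;> by_cases hy : y ∈ B <;> simp [hx, hy, H]

/-- Prekopa-Leindler in n dimensions -/
theorem pl_pi (n : ℕ) : PL (volume : Measure (Fin n → ℝ)) fun x y i => (x i + y i) / 2 :=
  pl_line.power n

/-- geometric mean form on the half line -/
theorem pl_geo : PL (volume.restrict (Ioi (0 : ℝ))) fun x y => √(x * y) := fun f g k hf hg hk H => by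
  have e : ∀ f : ℝ → ENNReal, ∫⁻ x in Ioi 0, f x = ∫⁻ x, ENNReal.ofReal (Real.exp x) * f (Real.exp x) :=
    fun f => by
      have := lintegral_image_eq_lintegral_abs_deriv_mul (s := univ) (f := Real.exp) .univ
        (fun x _ => (Real.hasDerivAt_exp x).hasDerivWithinAt) Real.exp_injective.injOn f
      simpa [Real.range_exp, abs_of_pos (Real.exp_pos _)] using this
  rw [e, e, e]
  refine pl_line _ _ _ (by fun_prop) (by fun_prop) (by fun_prop) fun x y => ?_
  have h2 : Real.exp ((x + y) / 2) = √(Real.exp x * Real.exp y) := by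
    rw [← Real.exp_add, Real.exp_half]
  rw [mul_mul_mul_comm, mul_pow, ← ENNReal.ofReal_mul (Real.exp_pos _).le,
    ← ENNReal.ofReal_pow (Real.exp_pos _).le, h2, Real.sq_sqrt (by positivity)]
  gcongr
  exact H _ _

/-- geometric mean form on the orthant -/
theorem pl_orthant (n : ℕ) : PL (volume.restrict (univ.pi fun _ : Fin n => Ioi (0 : ℝ)))
    fun x y i => √(x i * y i) := by
  rw [volume_pi, Measure.restrict_pi_pi]
  exact pl_geo.power n

end Pool.Agent.H60.CS
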